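import Pool.Agent.Work.MP_64ea0f_cs.InterfaceD

set_option autoImplicit false

/-! # Block GSE: the induction step of goodness (helper98) -/

namespace Pool.CS.H98

open Pool.CS

theorem stmt_GSE (hA : Stmt_GSA) (hB : Stmt_GSB) (hC : Stmt_GSC) (hD : Stmt_GSD) : Stmt_GSE := by
  intro Λ G A s F _ n hs hG1 hG2 V _ L hfix φ hφ hcoc
  obtain ⟨Q₁, fQ₁, nQ₁, K₁, ε, hK₁, hε1, hε2, ψ₁, hψ₁, h₁⟩ :=
    hA Λ G A s F (n + 1) hs hG1 V L hfix φ hφ hcoc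
  have hφ₁ : Coch (L.prod K₁) A (n + 2) (fun x l => φ x.1 l - del (ψ₁ x) l) :=
    Coch.sub (hφ.pull (L' := L.prod K₁) (π := Prod.fst) (fun a _ v => rfl)) hψ₁.del
  have hcoc₁ : Cocy G A (n + 2) (fun (x : V × Q₁) l => φ x.1 l - del (ψ₁ x) l) := by
    intro x l hl hn
    change del (fun l => φ x.1 l - del (ψ₁ x) l) l = 0
    rw [del_sub, del_del, hcoc x.1 l hl hn, sub_zero]
  have hvan₁ : ∀ (x : V × Q₁) l, Fl G (A \ {s}) l → l.length = n + 3 →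
      (fun (x : V × Q₁) l => φ x.1 l - del (ψ₁ x) l) x l = 0 := by
    intro x l hl hn
    change φ x.1 l - del (ψ₁ x) l = 0
    rw [h₁ x l hl (by omega), sub_self]
  obtain ⟨hD1, hD2⟩ := hB Λ G A s F n hs (V × Q₁) (L.prod K₁) ε hε1 hε2
    (fun x l => φ x.1 l - del (ψ₁ x) l) hφ₁ hcoc₁ hvan₁
  obtain ⟨hC1, hC2⟩ := hC Λ G A s F n hs (V × Q₁) (L.prod K₁)
    (fun x l => φ x.1 l - del (ψ₁ x) l) hφ₁ hcoc₁ hvan₁
  obtain ⟨Q₂, fQ₂, nQ₂, K₂, Ω, hK₂, hΩ1, hΩ2⟩ := hD Λ G A s F n hs hG2 (V × Q₁) (L.prod K₁) ε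
    hε1 hε2 (fun x l => φ x.1 l - del (ψ₁ x) l) hC1 hC2
  refine ⟨(V × Q₁) × Q₂, inferInstance, (L.prod K₁).prod K₂, fun x => x.1.1, ?_, ?_, ?_,
    fun x l => (ψ₁ x.1 l +
      Dop (L.prod K₁) A s ε (fun x l => φ x.1 l - del (ψ₁ x) l) x.1 l) + Ω x l, ?_, ?_⟩
  · intro a ha v
    obtain ⟨⟨v, q₁⟩, q₂⟩ := v
    change ((L.τ a v, K₁.τ a q₁), K₂.τ a q₂) = ((v, q₁), q₂)
    rw [hfix a ha, hK₁ a ha, hK₂ a ha]
  · intro v
    obtain ⟨q₁⟩ := nQ₁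
    obtain ⟨q₂⟩ := nQ₂
    exact ⟨((v, q₁), q₂), rfl⟩
  · intro a v
    rfl
  · refine Coch.add (Coch.add ?_ ?_) hΩ1
    · exact hψ₁.pull (L' := (L.prod K₁).prod K₂) (π := Prod.fst) (fun a _ v => rfl)
    · exact hD1.pull (L' := (L.prod K₁).prod K₂) (π := Prod.fst) (fun a _ v => rfl)
  · intro x l hl hn
    change φ x.1.1 l = del (fun l => (ψ₁ x.1 l +
      Dop (L.prod K₁) A s ε (fun x l => φ x.1 l - del (ψ₁ x) l) x.1 l) + Ω x l) l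
    rw [del_add, del_add, hΩ2 x l hl (by omega)]
    have h2 := hD2 x.1 l hl (by omega)
    have h3 : del (fun l => Dop (L.prod K₁) A s ε (fun x l => φ x.1 l - del (ψ₁ x) l) x.1 l) l =
        del (Dop (L.prod K₁) A s ε (fun x l => φ x.1 l - del (ψ₁ x) l) x.1) l := rfl
    rw [h3, h2]
    have h4 : del (fun l => ψ₁ x.1 l) l = del (ψ₁ x.1) l := rfl
    rw [h4]
    abel

end Pool.CS.H98
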