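import Pool.Agent.Work.MP_64ea0f_cs.InterfaceG3

set_option autoImplicit false

/-! # KMC: the development modulo a finite index subgroup is constant on shift classes -/

namespace Pool.CS
namespace H98K

variable {D : Rd}

/-! ## Labels -/

theorem lab_self (H : Subgroup D.W) (φ : D.V) : φ ∈ D.lab H φ :=
  ⟨1, H.one_mem, Or.inl (by rw [map_one]; rfl)⟩

theorem lab_symm (H : Subgroup D.W) {φ ψ : D.V} (h : ψ ∈ D.lab H φ) : φ ∈ D.lab H ψ := by
  obtain ⟨g, hg, h⟩ := h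
  refine ⟨g⁻¹, H.inv_mem hg, ?_⟩
  have e : D.ρ g⁻¹ (D.ρ g φ) = φ := by
    rw [← Module.End.mul_apply, ← map_mul, inv_mul_cancel, map_one]; rfl
  rcases h with h | h
  · left; rw [h, e]
  · right; rw [h, map_neg, e, neg_neg]

theorem lab_trans (H : Subgroup D.W) {φ ψ χ : D.V} (h : ψ ∈ D.lab H φ) (h' : χ ∈ D.lab H ψ) :
    χ ∈ D.lab H φ := by
  obtain ⟨g, hg, h⟩ := h
  obtain ⟨g', hg', h'⟩ := h'
  refine ⟨g' * g, H.mul_mem hg' hg, ?_⟩
  have e : D.ρ (g' * g) φ = D.ρ g' (D.ρ g φ) := by rw [map_mul]; rfl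
  rw [e]
  rcases h with h | h <;> rcases h' with h' | h' <;> subst h <;> subst h'
  · left; rfl
  · right; rfl
  · right; rw [map_neg]
  · left; rw [map_neg, neg_neg]

theorem lab_eq (H : Subgroup D.W) {φ ψ : D.V} (h : ψ ∈ D.lab H φ) : D.lab H ψ = D.lab H φ := by
  ext χ
  exact ⟨fun h' => lab_trans H h h', fun h' => lab_trans H (lab_symm H h) h'⟩

/-! ## Arithmetic on the progressions -/

section prog
variable {δ : D.V}

theorem prog_mem (hT : Stmt_THR) (hδ : D.Af δ) {φ : D.V} (hφ : φ ∈ D.Fd δ) (i : ℤ) :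
    φ + ((i : ℝ) * D.cst δ φ) • δ ∈ D.Fd δ ∧
      D.cst δ (φ + ((i : ℝ) * D.cst δ φ) • δ) = D.cst δ φ := by
  obtain ⟨-, h2, h3, -⟩ := hT D δ hδ φ hφ
  have h := (h2 ((i : ℝ) * D.cst δ φ)).2 ⟨i, rfl⟩
  exact ⟨(h3 _ h).2, (h3 _ h).1⟩

theorem prog_add (φ : D.V) (c a b : ℝ) :
    φ + ((a : ℝ) * c) • δ - (b * c) • δ = φ + ((a - b) * c) • δ := by
  rw [add_sub_assoc, ← sub_smul, ← sub_mul]

theorem sub_prog (hT : Stmt_THR) (hδ : D.Af δ) {φ : D.V} (hφ : φ ∈ D.Fd δ) (n : ℤ) :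
    φ - ((n : ℝ) * D.cst δ φ) • δ ∈ D.Fd δ ∧
      D.cst δ (φ - ((n : ℝ) * D.cst δ φ) • δ) = D.cst δ φ := by
  have h := prog_mem hT hδ hφ (-n)
  have e : φ + (((-n : ℤ) : ℝ) * D.cst δ φ) • δ = φ - ((n : ℝ) * D.cst δ φ) • δ := by
    rw [Int.cast_neg, neg_mul, neg_smul, ← sub_eq_add_neg]
  rw [e] at h
  exact h

/-- composition of shifts -/
theorem shs_shs (hT : Stmt_THR) (hδ : D.Af δ) {K : Set D.S} {ν ν' : D.V → ℤ} (hν : D.Iv K δ ν')
    (x : Set D.V) :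
    D.shs δ ν (D.shs δ ν' x) = D.shs δ (fun φ => ν φ + ν' φ) x := by
  ext φ
  by_cases hφ : φ ∈ D.Fd δ
  · have h := sub_prog hT hδ hφ (ν φ)
    have e1 : φ ∈ D.shs δ ν (D.shs δ ν' x) ↔
        φ - ((ν φ : ℝ) * D.cst δ φ) • δ ∈ D.shs δ ν' x := by
      constructor
      · rintro (⟨-, h1⟩ | ⟨-, h1⟩)
        · exact absurd hφ h1
        · exact h1
      · intro h1; exact Or.inr ⟨hφ, h1⟩
    have e2 : φ ∈ D.shs δ (fun φ => ν φ + ν' φ) x ↔
        φ - (((ν φ + ν' φ : ℤ) : ℝ) * D.cst δ φ) • δ ∈ x := by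
      constructor
      · rintro (⟨-, h1⟩ | ⟨-, h1⟩)
        · exact absurd hφ h1
        · exact h1
      · intro h1; exact Or.inr ⟨hφ, h1⟩
    have hd : ν' (φ - ((ν φ : ℝ) * D.cst δ φ) • δ) = ν' φ := by
      have h4 := hν.dir φ hφ (-((ν φ : ℝ) * D.cst δ φ))
      rw [neg_smul, ← sub_eq_add_neg] at h4
      exact h4 h.1
    have e3 : φ - ((ν φ : ℝ) * D.cst δ φ) • δ ∈ D.shs δ ν' x ↔
        φ - (((ν φ + ν' φ : ℤ) : ℝ) * D.cst δ φ) • δ ∈ x := by
      have e4 : φ - ((ν φ : ℝ) * D.cst δ φ) • δ -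
          ((ν' (φ - ((ν φ : ℝ) * D.cst δ φ) • δ) : ℝ) *
            D.cst δ (φ - ((ν φ : ℝ) * D.cst δ φ) • δ)) • δ =
          φ - (((ν φ + ν' φ : ℤ) : ℝ) * D.cst δ φ) • δ := by
        rw [hd, h.2, sub_sub, ← add_smul]
        push_cast
        rw [add_mul]
      constructor
      · rintro (⟨-, h1⟩ | ⟨-, h1⟩)
        · exact absurd h.1 h1
        · rwa [e4] at h1
      · intro h1
        refine Or.inr ⟨h.1, ?_⟩
        rw [e4]; exact h1
    rw [e1, e3, e2]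
  · constructor
    · rintro (⟨h1, -⟩ | ⟨h1, -⟩)
      · rcases h1 with ⟨h1, -⟩ | ⟨h1, -⟩
        · exact Or.inl ⟨h1, hφ⟩
        · exact absurd h1 hφ
      · exact absurd h1 hφ
    · rintro (⟨h1, -⟩ | ⟨h1, -⟩)
      · exact Or.inl ⟨Or.inl ⟨h1, hφ⟩, hφ⟩
      · exact absurd h1 hφ

theorem shs_zero {ν : D.V → ℤ} (h0 : ∀ φ ∈ D.Fd δ, ν φ = 0) (x : Set D.V) :
    D.shs δ ν x = x := by
  ext φ
  by_cases hφ : φ ∈ D.Fd δ
  · have e : φ - ((ν φ : ℝ) * D.cst δ φ) • δ = φ := by rw [h0 φ hφ]; simp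
    constructor
    · rintro (⟨-, h1⟩ | ⟨-, h1⟩)
      · exact absurd hφ h1
      · rwa [e] at h1
    · intro h1; exact Or.inr ⟨hφ, by rw [e]; exact h1⟩
  · constructor
    · rintro (⟨h1, -⟩ | ⟨h1, -⟩)
      · exact h1
      · exact absurd h1 hφ
    · intro h1; exact Or.inl ⟨h1, hφ⟩

theorem mem_shs {ν : D.V → ℤ} {φ : D.V} (hφ : φ ∈ D.Fd δ) (x : Set D.V) :
    φ ∈ D.shs δ ν x ↔ φ - ((ν φ : ℝ) * D.cst δ φ) • δ ∈ x := by
  constructor
  · rintro (⟨-, h1⟩ | ⟨-, h1⟩)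
    · exact absurd hφ h1
    · exact h1
  · intro h1; exact Or.inr ⟨hφ, h1⟩

theorem mem_shs' {ν : D.V → ℤ} {φ : D.V} (hφ : φ ∉ D.Fd δ) (x : Set D.V) :
    φ ∈ D.shs δ ν x ↔ φ ∈ x := by
  constructor
  · rintro (⟨h1, -⟩ | ⟨h1, -⟩)
    · exact h1
    · exact absurd h1 hφ
  · intro h1; exact Or.inl ⟨h1, hφ⟩

end prog

/-! ## The unit vector of one direction -/

open Classical in
/-- `1` on the direction of `α`, `-1` on the direction of `-α` -/
noncomputable def uv (δ α φ : D.V) : ℤ :=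
  if ∃ t : ℝ, φ = α + t • δ then 1 else if ∃ t : ℝ, φ = -α + t • δ then -1 else 0

/-- exclusive directions -/
def Exc (D : Rd) (δ α : D.V) : Prop :=
  ∀ φ ∈ D.Fd δ, ¬ ((∃ t : ℝ, φ = α + t • δ) ∧ ∃ t : ℝ, φ = -α + t • δ)

theorem uv_P {δ α φ : D.V} (h : ∃ t : ℝ, φ = α + t • δ) : uv δ α φ = 1 := by
  unfold uv; rw [if_pos h]

theorem uv_Q {δ α φ : D.V} (h : ¬ ∃ t : ℝ, φ = α + t • δ) (h' : ∃ t : ℝ, φ = -α + t • δ) :
    uv δ α φ = -1 := by
  unfold uv; rw [if_neg h, if_pos h']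

theorem uv_N {δ α φ : D.V} (h : ¬ ∃ t : ℝ, φ = α + t • δ) (h' : ¬ ∃ t : ℝ, φ = -α + t • δ) :
    uv δ α φ = 0 := by
  unfold uv; rw [if_neg h, if_neg h']

theorem P_neg {δ α φ : D.V} : (∃ t : ℝ, -φ = α + t • δ) ↔ ∃ t : ℝ, φ = -α + t • δ := by
  constructor
  · rintro ⟨t, h⟩
    refine ⟨-t, ?_⟩
    rw [← neg_neg φ, h, neg_add, neg_smul]
  · rintro ⟨t, h⟩
    refine ⟨-t, ?_⟩
    rw [h, neg_add, neg_neg, neg_smul]

theorem Q_neg {δ α φ : D.V} : (∃ t : ℝ, -φ = -α + t • δ) ↔ ∃ t : ℝ, φ = α + t • δ := by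
  have h := P_neg (D := D) (δ := δ) (α := -α) (φ := φ)
  rw [neg_neg] at h
  exact h

theorem P_shift {δ α φ : D.V} (s : ℝ) :
    (∃ t : ℝ, φ + s • δ = α + t • δ) ↔ ∃ t : ℝ, φ = α + t • δ := by
  constructor
  · rintro ⟨t, h⟩
    refine ⟨t - s, ?_⟩
    rw [sub_smul, ← add_sub_assoc, ← h, add_sub_cancel_right]
  · rintro ⟨t, h⟩
    refine ⟨t + s, ?_⟩
    rw [h, add_smul, add_assoc]

theorem uv_iv {K : Set D.S} {δ α : D.V} {ν : D.V → ℤ} (hν : D.Iv K δ ν)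
    (hα : α ∈ D.Fd δ) (hα' : -α ∈ D.Fd δ) (hn : ν α ≠ 0) :
    D.Iv K δ (uv δ α) ∧ Exc D δ α := by
  have hP : ∀ φ ∈ D.Fd δ, (∃ t : ℝ, φ = α + t • δ) → ν φ = ν α := by
    rintro φ hφ ⟨t, rfl⟩
    exact hν.dir α hα t hφ
  have hQ : ∀ φ ∈ D.Fd δ, (∃ t : ℝ, φ = -α + t • δ) → ν φ = -ν α := by
    rintro φ hφ ⟨t, rfl⟩
    rw [hν.dir (-α) hα' t hφ, hν.odd α hα]
  have hE : Exc D δ α := by
    rintro φ hφ ⟨h1, h2⟩
    have := hP φ hφ h1
    have := hQ φ hφ h2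
    omega
  refine ⟨⟨?_, ?_, ?_⟩, hE⟩
  · intro φ hφ t _
    have e1 := P_shift (D := D) (δ := δ) (α := α) (φ := φ) t
    have e2 := P_shift (D := D) (δ := δ) (α := -α) (φ := φ) t
    by_cases h1 : ∃ t : ℝ, φ = α + t • δ
    · rw [uv_P h1, uv_P (e1.2 h1)]
    · by_cases h2 : ∃ t : ℝ, φ = -α + t • δ
      · rw [uv_Q h1 h2, uv_Q (fun h => h1 (e1.1 h)) (e2.2 h2)]
      · rw [uv_N h1 h2, uv_N (fun h => h1 (e1.1 h)) (fun h => h2 (e2.1 h))]
  · intro φ hφ
    by_cases h1 : ∃ t : ℝ, φ = α + t • δ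
    · have h2 : ¬ ∃ t : ℝ, φ = -α + t • δ := fun h => hE φ hφ ⟨h1, h⟩
      rw [uv_P h1, uv_Q (by rw [P_neg]; exact h2) (by rw [Q_neg]; exact h1)]
    · by_cases h2 : ∃ t : ℝ, φ = -α + t • δ
      · rw [uv_Q h1 h2, uv_P (by rw [P_neg]; exact h2), neg_neg]
      · rw [uv_N h1 h2, uv_N (by rw [P_neg]; exact h2) (by rw [Q_neg]; exact h1), neg_zero]
  · intro φ hφ hK
    have h0 := hν.zro φ hφ hK
    apply uv_N
    · intro h1; rw [hP φ hφ h1] at h0; exact hn h0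
    · intro h1; rw [hQ φ hφ h1] at h0; exact hn (neg_eq_zero.1 h0)

theorem iv_smul {K : Set D.S} {δ : D.V} {ν : D.V → ℤ} (hν : D.Iv K δ ν) (k : ℤ) :
    D.Iv K δ (fun φ => k * ν φ) := by
  refine ⟨?_, ?_, ?_⟩
  · intro φ hφ t ht
    rw [hν.dir φ hφ t ht]
  · intro φ hφ
    rw [hν.odd φ hφ]; ring
  · intro φ hφ h
    rw [hν.zro φ hφ h]; ring

theorem iv_sub {K : Set D.S} {δ : D.V} {ν ν' : D.V → ℤ} (hν : D.Iv K δ ν) (hν' : D.Iv K δ ν') :
    D.Iv K δ (fun φ => ν φ - ν' φ) := by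
  refine ⟨?_, ?_, ?_⟩
  · intro φ hφ t ht
    rw [hν.dir φ hφ t ht, hν'.dir φ hφ t ht]
  · intro φ hφ
    rw [hν.odd φ hφ, hν'.odd φ hφ]; ring
  · intro φ hφ h
    rw [hν.zro φ hφ h, hν'.zro φ hφ h]; ring

/-! ## One step -/

theorem neg_mem (h1 : Stmt_VX1) {x : Set D.V} (hx : D.Vx x) {ψ : D.V} (hψ : ψ ∈ D.Rt) :
    -ψ ∈ x ↔ ψ ∉ x := by
  obtain ⟨-, -, -, -, -, -, -, -, h9, -⟩ := h1 D
  constructor
  · intro h h'
    exact h9 x hx ψ h' h
  · intro h
    rcases hx.tot ψ hψ with h' | h'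
    · exact absurd h' h
    · exact h'

theorem fd_rt {δ φ : D.V} (h : φ ∈ D.Fd δ) : φ ∈ D.Rt := h.1

/-- a unit shift is the flip of the threshold -/
theorem shs_fl (hT : Stmt_THR) (h1 : Stmt_VX1) {δ : D.V} (hδ : D.Af δ) {α : D.V}
    (hα : α ∈ D.Fd δ) (hE : Exc D δ α) {x : Set D.V} (hx : D.Vx x) (j : ℤ)
    (hj : ∀ i : ℤ, α + ((i : ℝ) * D.cst δ α) • δ ∈ x ↔ j ≤ i) :
    D.shs δ (uv δ α) x = D.fl x (α + ((j : ℝ) * D.cst δ α) • δ) := by
  have hpos := (hT D δ hδ α hα).1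
  have hj0 := prog_mem hT hδ hα j
  set t0 : D.V := α + ((j : ℝ) * D.cst δ α) • δ with ht0
  have ht0n : -t0 ∈ D.Fd δ := (hT D δ hδ t0 hj0.1).2.2.2.1
  have hPt : ∃ t : ℝ, t0 = α + t • δ := ⟨_, rfl⟩
  have hQt : ∃ t : ℝ, -t0 = -α + t • δ := by rw [Q_neg]; exact hPt
  have key : ∀ i : ℤ, α + ((i : ℝ) * D.cst δ α) • δ - (((1 : ℤ) : ℝ) * D.cst δ α) • δ =
      α + (((i - 1 : ℤ) : ℝ) * D.cst δ α) • δ := by
    intro i
    rw [add_sub_assoc, ← sub_smul, ← sub_mul]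
    push_cast
    rfl
  ext φ
  by_cases hφ : φ ∈ D.Fd δ
  · rw [mem_shs hφ]
    by_cases hP : ∃ t : ℝ, φ = α + t • δ
    · rw [uv_P hP]
      have hQ : ¬ ∃ t : ℝ, φ = -α + t • δ := fun h => hE φ hφ ⟨hP, h⟩
      obtain ⟨t, ht⟩ := hP
      obtain ⟨i, hi⟩ := ((hT D δ hδ α hα).2.1 t).1 (by rw [← ht]; exact hφ.1)
      rw [hi] at ht
      have hc : D.cst δ φ = D.cst δ α := by rw [ht]; exact (prog_mem hT hδ hα i).2
      rw [hc, ht, key i, hj (i - 1)]
      constructor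
      · intro h
        refine Or.inr ⟨(hj i).2 (by omega), ?_⟩
        intro h'
        have h2 : α + ((i : ℝ) * D.cst δ α) • δ = t0 := h'
        have h3 := (hj (i - 1)).2 h
        rw [← key i, h2, ht0, key j, hj (j - 1)] at h3
        omega
      · rintro (h | ⟨h, h'⟩)
        · exfalso
          apply hQ
          rw [ht, h]
          exact hQt
        · have h2 := (hj i).1 h
          have h3 : i ≠ j := by
            rintro rfl
            exact h' rfl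
          omega
    · by_cases hQ : ∃ t : ℝ, φ = -α + t • δ
      · rw [uv_Q hP hQ]
        have hn : -φ ∈ D.Fd δ := (hT D δ hδ φ hφ).2.2.2.1
        have hcn : D.cst δ (-φ) = D.cst δ φ := (hT D δ hδ φ hφ).2.2.2.2.1
        have hP' : ∃ t : ℝ, -φ = α + t • δ := by rw [P_neg]; exact hQ
        obtain ⟨t, ht⟩ := hP'
        obtain ⟨i, hi⟩ := ((hT D δ hδ α hα).2.1 t).1 (by rw [← ht]; exact hn.1)
        rw [hi] at ht
        have hc : D.cst δ φ = D.cst δ α := by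
          rw [← hcn, ht]; exact (prog_mem hT hδ hα i).2
        have hφe : φ = -(α + ((i : ℝ) * D.cst δ α) • δ) := by rw [← ht, neg_neg]
        have e1 : φ - (((-1 : ℤ) : ℝ) * D.cst δ φ) • δ =
            -(α + (((i - 1 : ℤ) : ℝ) * D.cst δ α) • δ) := by
          rw [← key i, hc, hφe]
          push_cast
          rw [neg_one_mul, one_mul, neg_smul]
          abel
        rw [e1, neg_mem h1 hx (prog_mem hT hδ hα (i - 1)).1.1, hj (i - 1)]
        have e2 : φ ∈ x ↔ ¬ j ≤ i := by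
          rw [hφe, neg_mem h1 hx (prog_mem hT hδ hα i).1.1, hj i]
        constructor
        · intro h
          by_cases h2 : i = j
          · left; rw [hφe, ht0, h2]
          · right
            refine ⟨e2.2 (by omega), ?_⟩
            intro h'
            exact hP (by rw [Set.mem_singleton_iff.1 h']; exact hPt)
        · rintro (h | ⟨h, h'⟩)
          · have h2 : α + ((i : ℝ) * D.cst δ α) • δ = t0 := by
              rw [← neg_neg t0, ← h, ht]
            intro h3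
            have h4 := (hj (i - 1)).2 h3
            rw [← key i, h2, ht0, key j, hj (j - 1)] at h4
            omega
          · have := e2.1 h
            omega
      · rw [uv_N hP hQ]
        have e1 : φ - (((0 : ℤ) : ℝ) * D.cst δ φ) • δ = φ := by simp
        rw [e1]
        constructor
        · intro h
          refine Or.inr ⟨h, ?_⟩
          intro h'
          exact hP (by rw [Set.mem_singleton_iff.1 h']; exact hPt)
        · rintro (h | ⟨h, -⟩)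
          · exact absurd (by rw [h]; exact hQt) hQ
          · exact h
  · rw [mem_shs' hφ]
    constructor
    · intro h
      refine Or.inr ⟨h, ?_⟩
      intro h'
      exact hφ (by rw [Set.mem_singleton_iff.1 h']; exact hj0.1)
    · rintro (h | ⟨h, -⟩)
      · exact absurd (by rw [h]; exact ht0n) hφ
      · exact h

theorem fl_ne (h1 : Stmt_VX1) {x : Set D.V} (hx : D.Vx x) {φ : D.V} (hφ : φ ∈ x) :
    D.fl x φ ≠ x := by
  obtain ⟨-, -, -, -, -, -, -, -, h9, -⟩ := h1 D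
  intro h
  have h2 : -φ ∈ D.fl x φ := Set.mem_insert _ _
  rw [h] at h2
  exact h9 x hx φ hφ h2

/-! ## The development along one direction -/

/-- the label of the `i`-th root of the progression -/
def lb (H : Subgroup D.W) {δ α : D.V} (hT : Stmt_THR) (hδ : D.Af δ) (hα : α ∈ D.Fd δ) (i : ℤ) :
    D.Lb H :=
  ⟨D.lab H (α + ((i : ℝ) * D.cst δ α) • δ), _, (prog_mem hT hδ hα i).1.1, rfl⟩

theorem kstep (hT : Stmt_THR) (h1 : Stmt_VX1) (hB : Stmt_BTH) {H : Subgroup D.W}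
    {L : LS (D.lg H) D.X} (hL : D.IsFlip H L) {b : D.X} {κ : D.X → RC (D.lg H)}
    {c : H →* RC (D.lg H)} (hD : D.Dev H L b κ c) {δ : D.V} (hδ : D.Af δ) {α : D.V}
    (hα : α ∈ D.Fd δ) (hE : Exc D δ α) (x y : D.X) (hbig : D.Big x.1 δ) (j : ℤ)
    (hj : ∀ i : ℤ, α + ((i : ℝ) * D.cst δ α) • δ ∈ x.1 ↔ j ≤ i)
    (hy : y.1 = D.shs δ (uv δ α) x.1) :
    κ y = κ x * rg (D.lg H) (lb H hT hδ hα j) := by
  have hx : D.Vx x.1 := x.2
  have hj0 := prog_mem hT hδ hα j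
  have hmem : α + ((j : ℝ) * D.cst δ α) • δ ∈ x.1 := (hj j).2 le_rfl
  have hnot : α + ((j : ℝ) * D.cst δ α) • δ -
      (D.cst δ (α + ((j : ℝ) * D.cst δ α) • δ)) • δ ∉ x.1 := by
    rw [hj0.2]
    have e : α + ((j : ℝ) * D.cst δ α) • δ - (D.cst δ α) • δ =
        α + (((j - 1 : ℤ) : ℝ) * D.cst δ α) • δ := by
      rw [add_sub_assoc, ← sub_smul]
      push_cast
      rw [sub_mul, one_mul]
    rw [e, hj (j - 1)]
    omega
  have hMn : D.Mn x.1 (α + ((j : ℝ) * D.cst δ α) • δ) :=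
    hB D x.1 hx δ hδ hbig _ hj0.1 hmem hnot
  have hfl : y.1 = D.fl x.1 (α + ((j : ℝ) * D.cst δ α) • δ) := by
    rw [hy]; exact shs_fl hT h1 hδ hα hE hx j hj
  have hτ : (L.τ (lb H hT hδ hα j) x).1 = D.fl x.1 (α + ((j : ℝ) * D.cst δ α) • δ) :=
    (hL (lb H hT hδ hα j) x).1 _ hMn (lab_self H _)
  have hyx : L.τ (lb H hT hδ hα j) x = y := Subtype.ext (by rw [hτ, hfl])
  have hne : L.τ (lb H hT hδ hα j) x ≠ x := by
    intro h
    have h2 : (L.τ (lb H hT hδ hα j) x).1 = x.1 := by rw [h]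
    rw [hτ] at h2
    exact fl_ne h1 hx hmem h2
  have := hD.step _ x hne
  rw [hyx] at this
  exact this

/-- `n` unit steps -/
theorem ksteps (hT : Stmt_THR) (h1 : Stmt_VX1) (hB : Stmt_BTH) (hS : Stmt_SHX)
    {H : Subgroup D.W} {L : LS (D.lg H) D.X} (hL : D.IsFlip H L) {b : D.X}
    {κ : D.X → RC (D.lg H)} {c : H →* RC (D.lg H)} (hD : D.Dev H L b κ c) {K : Set D.S}
    (hK : Finite (D.par K)) {δ : D.V} (hδ : D.Af δ) (hc : D.Cmp K δ) {α : D.V}
    (hα : α ∈ D.Fd δ) (hu : D.Iv K δ (uv δ α)) (hE : Exc D δ α) (x : D.X) (hY : D.YJ K x.1)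
    (hbig : D.Big x.1 δ) (j : ℤ)
    (hj : ∀ i : ℤ, α + ((i : ℝ) * D.cst δ α) • δ ∈ x.1 ↔ j ≤ i) (n : ℕ) :
    ∀ y : D.X, y.1 = D.shs δ (fun φ => (n : ℤ) * uv δ α φ) x.1 →
      κ y = κ x * ((List.range n).map (fun i : ℕ => rg (D.lg H) (lb H hT hδ hα (j + i)))).prod := by
  induction n with
  | zero =>
    intro y hy
    have : y = x := by
      apply Subtype.ext
      rw [hy]
      exact shs_zero (fun φ _ => by simp) x.1
    rw [this]; simp
  | succ n ih =>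
    intro y hy
    have hu' := iv_smul hu (n : ℤ)
    have hS1 := hS D K hK δ hδ hc x.1 hY hbig _ hu'
    have hz1 : D.YJ K (D.shs δ (fun φ => (n : ℤ) * uv δ α φ) x.1) := hS1.1
    set z : D.X := ⟨D.shs δ (fun φ => (n : ℤ) * uv δ α φ) x.1, hz1.1⟩ with hz
    have hih := ih z rfl
    have hjz : ∀ i : ℤ, α + ((i : ℝ) * D.cst δ α) • δ ∈ z.1 ↔ j + n ≤ i := by
      intro i
      have hi := prog_mem hT hδ hα i
      change _ ∈ D.shs δ _ x.1 ↔ _
      rw [mem_shs hi.1, hi.2, uv_P ⟨_, rfl⟩, mul_one]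
      have e : α + ((i : ℝ) * D.cst δ α) • δ - (((n : ℤ) : ℝ) * D.cst δ α) • δ =
          α + (((i - n : ℤ) : ℝ) * D.cst δ α) • δ := by
        rw [add_sub_assoc, ← sub_smul, ← sub_mul]
        push_cast
        rfl
      rw [e, hj]
      constructor <;> intro h <;> omega
    have hyz : y.1 = D.shs δ (uv δ α) z.1 := by
      rw [hy]
      change _ = D.shs δ (uv δ α) (D.shs δ (fun φ => (n : ℤ) * uv δ α φ) x.1)
      rw [shs_shs hT hδ hu']
      congr 1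
      funext φ
      push_cast
      ring
    have hk := kstep hT h1 hB hL hD hδ hα hE z y hS1.2.1 (j + n) hjz hyz
    rw [hk, hih, List.range_succ, List.map_append, List.prod_append, mul_assoc]
    simp

/-- a periodic product -/
theorem prod_per {G : Type} [Group G] (g : ℕ → G) (p : ℕ) (hp : ∀ i, g (p + i) = g i) (m : ℕ) :
    ((List.range (p * m)).map g).prod = ((List.range p).map g).prod ^ m := by
  induction m with
  | zero => simp
  | succ m ih =>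
    have e : p * (m + 1) = p + p * m := by ring
    rw [e, List.range_add, List.map_append, List.prod_append, List.map_map, pow_succ', ← ih]
    congr 3
    funext i
    exact hp i

/-- one direction -/
theorem kdir (hT : Stmt_THR) (h1 : Stmt_VX1) (hB : Stmt_BTH) (hS : Stmt_SHX)
    {H : Subgroup D.W} {L : LS (D.lg H) D.X} (hL : D.IsFlip H L) {b : D.X}
    {κ : D.X → RC (D.lg H)} {c : H →* RC (D.lg H)} (hD : D.Dev H L b κ c) {K : Set D.S}
    (hK : Finite (D.par K)) {δ : D.V} (hδ : D.Af δ) (hc : D.Cmp K δ) {α : D.V}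
    (hα : α ∈ D.Fd δ) (hu : D.Iv K δ (uv δ α)) (hE : Exc D δ α)
    (MC : Subgroup (RC (D.lg H))) (e N0 : ℕ) (he : ∀ g : RC (D.lg H), g ^ e ∈ MC)
    (hN0 : ∀ φ ∈ D.Fd δ, ∀ i : ℤ, φ + ((N0 * i : ℝ) * D.cst δ φ) • δ ∈ D.lab H φ)
    (x : D.X) (hY : D.YJ K x.1) (hbig : D.Big x.1 δ) (n : ℕ) (hn : N0 * e ∣ n)
    (y : D.X) (hy : y.1 = D.shs δ (fun φ => (n : ℤ) * uv δ α φ) x.1) :
    (κ x)⁻¹ * κ y ∈ MC := by
  obtain ⟨j, hj⟩ := (hT D δ hδ α hα).2.2.2.2.2.2.1 x.1 x.2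
  have h := ksteps hT h1 hB hS hL hD hK hδ hc hα hu hE x hY hbig j hj n y hy
  rw [h, inv_mul_cancel_left]
  obtain ⟨k, rfl⟩ := hn
  have hper : ∀ i : ℕ, (fun i : ℕ => rg (D.lg H) (lb H hT hδ hα (j + i))) (N0 + i) =
      (fun i : ℕ => rg (D.lg H) (lb H hT hδ hα (j + i))) i := by
    intro i
    change rg (D.lg H) (lb H hT hδ hα (j + ((N0 + i : ℕ) : ℤ))) =
      rg (D.lg H) (lb H hT hδ hα (j + (i : ℤ)))
    congr 1
    apply Subtype.ext
    change D.lab H _ = D.lab H _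
    apply lab_eq
    have h2 := prog_mem hT hδ hα (j + i)
    have h3 := hN0 _ h2.1 1
    rw [h2.2, add_assoc, ← add_smul, ← add_mul] at h3
    have e1 : (((j + (i : ℤ) : ℤ) : ℝ) + (N0 : ℝ) * ((1 : ℤ) : ℝ)) =
        ((j + ((N0 + i : ℕ) : ℤ) : ℤ) : ℝ) := by
      push_cast
      ring
    rw [e1] at h3
    exact h3
  rw [mul_assoc, prod_per _ N0 hper, pow_mul]
  exact MC.pow_mem (he _) _

/-- all directions of one affine vector, by induction on the number of directions which move -/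
theorem kall (hT : Stmt_THR) (h1 : Stmt_VX1) (hB : Stmt_BTH) (hS : Stmt_SHX)
    {H : Subgroup D.W} {L : LS (D.lg H) D.X} (hL : D.IsFlip H L) {b : D.X}
    {κ : D.X → RC (D.lg H)} {c : H →* RC (D.lg H)} (hD : D.Dev H L b κ c) {K : Set D.S}
    (hK : Finite (D.par K)) {δ : D.V} (hδ : D.Af δ) (hc : D.Cmp K δ)
    (MC : Subgroup (RC (D.lg H))) (e N0 : ℕ) (he : ∀ g : RC (D.lg H), g ^ e ∈ MC)
    (hN0 : ∀ φ ∈ D.Fd δ, ∀ i : ℤ, φ + ((N0 * i : ℝ) * D.cst δ φ) • δ ∈ D.lab H φ)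
    {A : Finset D.V} (hA : D.Dirs δ A) (m : ℕ) :
    ∀ ν : D.V → ℤ, D.Iv K δ ν → (∀ φ ∈ D.Fd δ, ((N0 * e : ℕ) : ℤ) ∣ ν φ) →
      (A.filter (fun φ => ν φ ≠ 0)).card ≤ m →
      ∀ x : D.X, D.YJ K x.1 → D.Big x.1 δ → ∀ y : D.X, y.1 = D.shs δ ν x.1 →
        (κ x)⁻¹ * κ y ∈ MC := by
  induction m with
  | zero =>
    intro ν hν _ hm x _ _ y hy
    have h0 : ∀ φ ∈ D.Fd δ, ν φ = 0 := by
      intro φ hφ
      obtain ⟨a, ⟨haA, t, ht⟩, -⟩ := hA.2 φ hφ
      have ha : ν a = 0 := by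
        by_contra h
        have : a ∈ A.filter (fun φ => ν φ ≠ 0) := Finset.mem_filter.2 ⟨haA, h⟩
        have := Finset.card_pos.2 ⟨a, this⟩
        omega
      have h2 := hν.dir a (hA.1 a haA) t (by rw [← ht]; exact hφ)
      rw [ht, h2, ha]
    have : y = x := by
      apply Subtype.ext
      rw [hy]; exact shs_zero h0 x.1
    rw [this, inv_mul_cancel]
    exact MC.one_mem
  | succ m ih =>
    intro ν hν hdv hm x hY hbig y hy
    by_cases hz : ∃ a ∈ A, ν a ≠ 0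
    · obtain ⟨a, haA, ha⟩ := hz
      have haF : a ∈ D.Fd δ := hA.1 a haA
      have haF' : -a ∈ D.Fd δ := (hT D δ hδ a haF).2.2.2.1
      -- a root with positive value
      have hpos : ∃ α ∈ D.Fd δ, 0 < ν α ∧ (α = a ∨ α = -a) := by
        rcases lt_or_gt_of_ne ha with h | h
        · refine ⟨-a, haF', ?_, Or.inr rfl⟩
          rw [hν.odd a haF]; omega
        · exact ⟨a, haF, h, Or.inl rfl⟩
      obtain ⟨α, hα, hαp, hαa⟩ := hpos
      have hαn : -α ∈ D.Fd δ := (hT D δ hδ α hα).2.2.2.1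
      obtain ⟨hu, hE⟩ := uv_iv hν hα hαn (by omega)
      set n : ℕ := (ν α).toNat with hn
      have hnα : (n : ℤ) = ν α := Int.toNat_of_nonneg hαp.le
      have hdn : N0 * e ∣ n := by
        have := hdv α hα
        rw [← hnα] at this
        exact Int.natCast_dvd_natCast.1 this
      have hu' := iv_smul hu (n : ℤ)
      have hS1 := hS D K hK δ hδ hc x.1 hY hbig _ hu'
      set z : D.X := ⟨D.shs δ (fun φ => (n : ℤ) * uv δ α φ) x.1, hS1.1.1⟩ with hzd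
      have hxz : (κ x)⁻¹ * κ z ∈ MC :=
        kdir hT h1 hB hS hL hD hK hδ hc hα hu hE MC e N0 he hN0 x hY hbig n hdn z rfl
      have hν' : D.Iv K δ (fun φ => ν φ - n * uv δ α φ) := iv_sub hν hu'
      have hva : ν a - n * uv δ α a = 0 := by
        rcases hαa with h | h
        · rw [uv_P ⟨0, by rw [h]; simp⟩, mul_one, hnα, h]; omega
        · have hP : ¬ ∃ t : ℝ, a = α + t • δ := by
            intro h3
            apply hE a haF
            refine ⟨h3, 0, by rw [h]; simp⟩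
          rw [uv_Q hP ⟨0, by rw [h]; simp⟩, hnα, h, hν.odd a haF]; ring
      have hsub : (A.filter (fun φ => (fun φ => ν φ - n * uv δ α φ) φ ≠ 0)) ⊆
          (A.filter (fun φ => ν φ ≠ 0)).erase a := by
        intro φ hφ
        rw [Finset.mem_filter] at hφ
        obtain ⟨hφA, hφ0⟩ := hφ
        change ν φ - n * uv δ α φ ≠ 0 at hφ0
        rw [Finset.mem_erase, Finset.mem_filter]
        refine ⟨?_, hφA, ?_⟩
        · rintro rfl
          exact hφ0 hva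
        · intro h0
          apply hφ0
          have hφF : φ ∈ D.Fd δ := hA.1 φ hφA
          have hP : ¬ ∃ t : ℝ, φ = α + t • δ := by
            rintro ⟨t, ht⟩
            have := hν.dir α hα t (by rw [← ht]; exact hφF)
            rw [← ht, h0] at this
            omega
          have hQ : ¬ ∃ t : ℝ, φ = -α + t • δ := by
            rintro ⟨t, ht⟩
            have := hν.dir (-α) hαn t (by rw [← ht]; exact hφF)
            rw [← ht, h0, hν.odd α hα] at this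
            omega
          rw [h0, uv_N hP hQ]; ring
      have hcard : (A.filter (fun φ => (fun φ => ν φ - n * uv δ α φ) φ ≠ 0)).card ≤ m := by
        have h5 := Finset.card_le_card hsub
        have h6 : a ∈ A.filter (fun φ => ν φ ≠ 0) := Finset.mem_filter.2 ⟨haA, ha⟩
        rw [Finset.card_erase_of_mem h6] at h5
        omega
      have hdv' : ∀ φ ∈ D.Fd δ, ((N0 * e : ℕ) : ℤ) ∣ ν φ - n * uv δ α φ := by
        intro φ hφ
        apply dvd_sub (hdv φ hφ)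
        exact Dvd.dvd.mul_right (Int.natCast_dvd_natCast.2 hdn) _
      have hyz : y.1 = D.shs δ (fun φ => ν φ - n * uv δ α φ) z.1 := by
        rw [hy]
        change _ = D.shs δ _ (D.shs δ (fun φ => (n : ℤ) * uv δ α φ) x.1)
        rw [shs_shs hT hδ hu']
        congr 1
        funext φ
        ring
      have hzy := ih _ hν' hdv' hcard z hS1.1 hS1.2.1 y hyz
      have := MC.mul_mem hxz hzy
      have e5 : (κ x)⁻¹ * κ z * ((κ z)⁻¹ * κ y) = (κ x)⁻¹ * κ y := by group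
      rwa [e5] at this
    · apply ih ν hν hdv _ x hY hbig y hy
      have : A.filter (fun φ => ν φ ≠ 0) = ∅ := by
        rw [Finset.filter_eq_empty_iff]
        intro φ hφ h
        exact hz ⟨φ, hφ, h⟩
      rw [this]; simp

/-- the block -/
theorem stmt_KMC (hT : Stmt_THR) (hO : Stmt_ORD) (h1 : Stmt_VX1) (hB : Stmt_BTH)
    (hS : Stmt_SHX) (hP : Stmt_PRL) : Stmt_KMC := by
  intro D H hH L hL b κ c hD MC hMCn hMCf
  obtain ⟨N0, hN0p, hN0⟩ := hP D H hH.nor hH.fin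
  have := hMCn
  have := hMCf
  refine ⟨N0 * MC.index, Nat.mul_pos hN0p (Nat.pos_of_ne_zero MC.index_ne_zero_of_finite), ?_⟩
  intro K N hK hdvN hNp
  have he : ∀ g : RC (D.lg H), g ^ MC.index ∈ MC := fun g => MC.pow_index_mem g
  -- the statement for all finite families
  have main : ∀ (Δ : Finset D.V) (ν : D.V → D.V → ℤ) (x : D.X), D.YJ K x.1 →
      (∀ δ ∈ Δ, D.Af δ ∧ D.Cmp K δ ∧ D.Big x.1 δ) →
      (∀ δ ∈ Δ, ∀ δ' ∈ Δ, δ ≠ δ' → D.B δ δ' = 0) →
      (∀ δ ∈ Δ, D.Iv K δ (ν δ) ∧ ∀ φ ∈ D.Fd δ, ((N0 * MC.index : ℕ) : ℤ) ∣ ν δ φ) →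
      ∀ y : D.X, (∀ φ ∈ D.Rt, (∀ δ ∈ Δ, φ ∉ D.Fd δ) → (φ ∈ x.1 ↔ φ ∈ y.1)) →
        (∀ δ ∈ Δ, ∀ φ ∈ D.Fd δ, φ ∈ y.1 ↔ φ - ((ν δ φ : ℝ) * D.cst δ φ) • δ ∈ x.1) →
        (κ x)⁻¹ * κ y ∈ MC := by
    intro Δ
    classical
    induction Δ using Finset.induction_on with
    | empty =>
      intro ν x _ _ _ _ y hout _
      have : y = x := by
        apply Subtype.ext
        ext φ
        constructor
        · intro h
          exact (hout φ (y.2.sub h) (by simp)).2 h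
        · intro h
          exact (hout φ (x.2.sub h) (by simp)).1 h
      rw [this, inv_mul_cancel]
      exact MC.one_mem
    | insert δ Δ hδΔ ih =>
      intro ν x hY haf hort hiv y hout hinn
      obtain ⟨hδ, hcm, hbig⟩ := haf δ (Finset.mem_insert_self _ _)
      obtain ⟨hivδ, hdvδ⟩ := hiv δ (Finset.mem_insert_self _ _)
      obtain ⟨φ0, -⟩ : ∃ φ : D.V, True := ⟨0, trivial⟩
      have hS1 := hS D K hK δ hδ hcm x.1 hY hbig _ hivδ
      set z : D.X := ⟨D.shs δ (ν δ) x.1, hS1.1.1⟩ with hz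
      -- orthogonality
      have hdis : ∀ δ' ∈ Δ, (∀ φ ∈ D.Fd δ, φ ∉ D.Fd δ') ∧ ∀ φ ∈ D.Fd δ', φ ∉ D.Fd δ := by
        intro δ' hδ'
        have hne : δ ≠ δ' := by rintro rfl; exact hδΔ hδ'
        have hB0 := hort δ (Finset.mem_insert_self _ _) δ' (Finset.mem_insert_of_mem hδ') hne
        have hB1 := hort δ' (Finset.mem_insert_of_mem hδ') δ (Finset.mem_insert_self _ _) hne.symm
        have haf' := (haf δ' (Finset.mem_insert_of_mem hδ')).1
        refine ⟨fun φ hφ => ((hO D δ δ' hδ haf').2 hB0 hne φ hφ).1,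
          fun φ hφ => ((hO D δ' δ haf' hδ).2 hB1 hne.symm φ hφ).1⟩
      have hxz : (κ x)⁻¹ * κ z ∈ MC := by
        by_cases hF : ∃ φ, φ ∈ D.Fd δ
        · obtain ⟨φ, hφ⟩ := hF
          obtain ⟨A, hA⟩ := (hT D δ hδ φ hφ).2.2.2.2.2.2.2.2.1
          exact kall hT h1 hB hS hL hD hK hδ hcm MC MC.index N0 he (hN0 δ hδ) hA _ (ν δ) hivδ
            hdvδ le_rfl x hY hbig z rfl
        · have : z = x := by
            apply Subtype.ext
            exact shs_zero (fun φ hφ => absurd ⟨φ, hφ⟩ hF) x.1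
          rw [this, inv_mul_cancel]
          exact MC.one_mem
      have hzy : (κ z)⁻¹ * κ y ∈ MC := by
        apply ih ν z hS1.1
        · intro δ' hδ'
          have h3 := haf δ' (Finset.mem_insert_of_mem hδ')
          have hne : δ ≠ δ' := by rintro rfl; exact hδΔ hδ'
          have hB0 := hort δ (Finset.mem_insert_self _ _) δ' (Finset.mem_insert_of_mem hδ') hne
          exact ⟨h3.1, h3.2.1, hS1.2.2.1 δ' h3.1 hB0 h3.2.2⟩
        · intro δ' h' δ'' h'' hne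
          exact hort δ' (Finset.mem_insert_of_mem h') δ'' (Finset.mem_insert_of_mem h'') hne
        · intro δ' h'
          exact hiv δ' (Finset.mem_insert_of_mem h')
        · intro φ hφ hn
          by_cases hF : φ ∈ D.Fd δ
          · change φ ∈ D.shs δ (ν δ) x.1 ↔ _
            rw [mem_shs hF, hinn δ (Finset.mem_insert_self _ _) φ hF]
          · change φ ∈ D.shs δ (ν δ) x.1 ↔ _
            rw [mem_shs' hF]
            apply hout φ hφ
            intro δ' h'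
            rcases Finset.mem_insert.1 h' with h' | h'
            · rw [h']; exact hF
            · exact hn δ' h'
        · intro δ' h' φ hφ
          rw [hinn δ' (Finset.mem_insert_of_mem h') φ hφ]
          have haf' := (haf δ' (Finset.mem_insert_of_mem h')).1
          have h4 := (sub_prog hT haf' hφ (ν δ' φ)).1
          change _ ↔ _ ∈ D.shs δ (ν δ) x.1
          rw [mem_shs' ((hdis δ' h').2 _ h4)]
      have := MC.mul_mem hxz hzy
      have e5 : (κ x)⁻¹ * κ z * ((κ z)⁻¹ * κ y) = (κ x)⁻¹ * κ y := by group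
      rwa [e5] at this
  intro x y hxy
  obtain ⟨Δ, ν, h⟩ := hxy
  apply main Δ ν x h.vx
  · intro δ hδ
    have := h.af δ hδ
    exact ⟨this.1, this.2.1, this.2.2.1⟩
  · exact h.ort
  · intro δ hδ
    have hs := h.shd δ hδ
    refine ⟨⟨hs.dir, hs.odd, hs.zro⟩, ?_⟩
    intro φ hφ
    exact (Int.natCast_dvd_natCast.2 hdvN).trans (hs.dvd φ hφ)
  · exact h.out
  · exact h.inn

end H98K
end Pool.CS
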