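import Pool.Agent.Work.MP_64ea0f_cs.InterfaceG1

set_option autoImplicit false

/-! # SMR: threshold roots (compactness) -/

namespace Pool.CS
namespace H98S

variable {D : Rd}

theorem B_e (v : D.V) (t : D.S) : D.B v (D.e t) = ∑ s, v s * D.k s t := by
  unfold Rd.B bform Rd.e
  refine Finset.sum_congr rfl fun s _ => ?_
  rw [Finset.sum_eq_single t]
  · simp
  · intro b _ hb
    simp [Pi.single_eq_of_ne hb]
  · intro h
    exact absurd (Finset.mem_univ t) h

theorem B_sum (v w : D.V) : D.B v w = ∑ t, w t * D.B v (D.e t) := by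
  simp_rw [B_e]
  unfold Rd.B bform
  rw [Finset.sum_comm]
  refine Finset.sum_congr rfl fun t _ => ?_
  rw [Finset.mul_sum]
  refine Finset.sum_congr rfl fun s _ => ?_
  ring

theorem B_smul (a : ℝ) (v w : D.V) : D.B (a • v) w = a * D.B v w := by
  unfold Rd.B bform
  rw [Finset.mul_sum]
  refine Finset.sum_congr rfl fun s _ => ?_
  rw [Finset.mul_sum]
  refine Finset.sum_congr rfl fun t _ => ?_
  simp only [Pi.smul_apply, smul_eq_mul]
  ring

theorem cont_Be (t : D.S) : Continuous fun v : D.V => D.B v (D.e t) := by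
  have : (fun v : D.V => D.B v (D.e t)) = fun v => ∑ s, v s * D.k s t := by
    funext v
    exact B_e v t
  rw [this]
  fun_prop

theorem cont_Bq : Continuous fun v : D.V => D.B v v := by
  have : (fun v : D.V => D.B v v) = fun v => ∑ t, v t * D.B v (D.e t) := by
    funext v
    exact B_sum v v
  rw [this]
  refine continuous_finsetSum _ fun t _ => ?_
  exact (continuous_apply t).mul (cont_Be t)

/-- limit vector of a sequence of bad roots -/
theorem exists_limit (hBAS : Stmt_BAS) (P : D.V → Prop)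
    (h : ∀ R : ℝ, ∃ μ ∈ D.Ps, (∀ s, D.B μ (D.e s) ≤ 1) ∧ R < D.ht μ ∧ P μ) :
    ∃ G : D.V, (∀ s, 0 ≤ G s) ∧ D.ht G = 1 ∧ (∀ s, D.B G (D.e s) ≤ 0) ∧ D.B G G = 0 ∧
      ∀ ε : ℝ, 0 < ε → ∃ μ ∈ D.Ps, (∀ s, D.B μ (D.e s) ≤ 1) ∧ 0 < D.ht μ ∧ P μ ∧
        ∀ s, (1 - ε) * G s * D.ht μ ≤ μ s := by
  choose! m hm using fun n : ℕ => h n
  have hpos : ∀ n, 0 < D.ht (m n) := fun n => lt_of_le_of_lt (Nat.cast_nonneg n) (hm n).2.2.1
  let v : ℕ → D.V := fun n => (D.ht (m n))⁻¹ • m n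
  have hv : ∀ n, v n ∈ stdSimplex ℝ D.S := by
    intro n
    constructor
    · intro s
      exact mul_nonneg (inv_nonneg.2 (hpos n).le) ((hm n).1.2 s)
    · show ∑ s, (D.ht (m n))⁻¹ * m n s = 1
      rw [← Finset.mul_sum]
      exact inv_mul_cancel₀ (hpos n).ne'
  obtain ⟨G, hG, φ, hφ, hlim⟩ := (isCompact_stdSimplex ℝ D.S).tendsto_subseq hv
  have hinv : Filter.Tendsto (fun n => (D.ht (m (φ n)))⁻¹) Filter.atTop (nhds 0) := by
    refine tendsto_inv_atTop_zero.comp ?_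
    refine Filter.tendsto_atTop_mono (fun n => ?_) (tendsto_natCast_atTop_atTop (R := ℝ))
    refine le_trans ?_ (hm (φ n)).2.2.1.le
    exact_mod_cast hφ.le_apply
  have hBe : ∀ n s, D.B (v n) (D.e s) ≤ (D.ht (m n))⁻¹ := by
    intro n s
    show D.B ((D.ht (m n))⁻¹ • m n) (D.e s) ≤ _
    rw [B_smul]
    calc (D.ht (m n))⁻¹ * D.B (m n) (D.e s) ≤ (D.ht (m n))⁻¹ * 1 :=
          mul_le_mul_of_nonneg_left ((hm n).2.1 s) (inv_nonneg.2 (hpos n).le)
      _ = _ := mul_one _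
  have hBq : ∀ n, D.B (v n) (v n) = (D.ht (m n))⁻¹ * (D.ht (m n))⁻¹ := by
    intro n
    show D.B ((D.ht (m n))⁻¹ • m n) ((D.ht (m n))⁻¹ • m n) = _
    obtain ⟨b1, -, -, -, -, b6, -⟩ := hBAS D
    rw [B_smul, b1, B_smul, b6 _ (hm n).1.1, mul_one]
  refine ⟨G, hG.1, hG.2, ?_, ?_, ?_⟩
  · intro s
    have h1 : Filter.Tendsto (fun n => D.B (v (φ n)) (D.e s)) Filter.atTop (nhds (D.B G (D.e s))) :=
      ((cont_Be (D := D) s).tendsto G).comp hlim
    exact le_of_tendsto_of_tendsto' h1 hinv fun n => hBe (φ n) s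
  · have h1 : Filter.Tendsto (fun n => D.B (v (φ n)) (v (φ n))) Filter.atTop (nhds (D.B G G)) :=
      ((cont_Bq (D := D)).tendsto G).comp hlim
    have h2 : Filter.Tendsto (fun n => D.B (v (φ n)) (v (φ n))) Filter.atTop (nhds 0) := by
      have h3 := hinv.mul hinv
      rw [mul_zero] at h3
      exact h3.congr fun n => (hBq (φ n)).symm
    exact tendsto_nhds_unique h1 h2
  · intro ε hε
    have hev : ∀ s, ∀ᶠ n in Filter.atTop, (1 - ε) * G s ≤ v (φ n) s := by
      intro s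
      rcases (hG.1 s).eq_or_lt with h0 | h0
      · refine Filter.Eventually.of_forall fun n => ?_
        rw [← h0, mul_zero]
        exact (hv (φ n)).1 s
      · have h1 : Filter.Tendsto (fun n => v (φ n) s) Filter.atTop (nhds (G s)) :=
          ((continuous_apply s).tendsto G).comp hlim
        have h2 : (1 - ε) * G s < G s := by nlinarith
        exact (h1.eventually (lt_mem_nhds h2)).mono fun n hn => hn.le
    obtain ⟨n, hn⟩ := (Filter.eventually_all.2 hev).exists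
    refine ⟨m (φ n), (hm (φ n)).1, (hm (φ n)).2.1, hpos (φ n), (hm (φ n)).2.2.2, fun s => ?_⟩
    have h1 : (1 - ε) * G s ≤ (D.ht (m (φ n)))⁻¹ * m (φ n) s := hn s
    have h2 := mul_le_mul_of_nonneg_right h1 (hpos (φ n)).le
    have h3 : (D.ht (m (φ n)))⁻¹ * m (φ n) s * D.ht (m (φ n)) = m (φ n) s := by
      field_simp [(hpos (φ n)).ne']
    rwa [h3] at h2

theorem stmt_SMR (hBAS : Stmt_BAS) (_hSGN : Stmt_SGN) (_hHGT : Stmt_HGT) (hCOE : Stmt_COE)
    (hCSU : Stmt_CSU) : Stmt_SMR := by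
  intro D
  by_contra hcon
  push Not at hcon
  obtain ⟨G, hG0, hG1, hGe, hGG, hGε⟩ := exists_limit (D := D) hBAS
    (fun μ => ∀ u, D.Sa u → ¬ D.In (D.sp u) μ) (fun R => by
      obtain ⟨μ, h1, h2, h3, h4⟩ := hcon R
      exact ⟨μ, h1, h2, h3, h4⟩)
  -- a lower bound for the nonzero values
  obtain ⟨κ, hκ, hκ'⟩ : ∃ κ : ℝ, 0 < κ ∧ ∀ s, D.B G (D.e s) < 0 → D.B G (D.e s) ≤ -κ := by
    by_cases hne : (Finset.univ.filter fun s => D.B G (D.e s) < 0).Nonempty
    · obtain ⟨s0, hs0, hmin⟩ := Finset.exists_max_image _ (fun s => D.B G (D.e s)) hne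
      refine ⟨-D.B G (D.e s0), ?_, fun s hs => ?_⟩
      · have := (Finset.mem_filter.1 hs0).2
        linarith
      · rw [neg_neg]
        exact hmin s (Finset.mem_filter.2 ⟨Finset.mem_univ _, hs⟩)
    · refine ⟨1, one_pos, fun s hs => ?_⟩
      exact absurd ⟨s, Finset.mem_filter.2 ⟨Finset.mem_univ _, hs⟩⟩ hne
  have hε : 0 < κ / (1 + κ) := by positivity
  obtain ⟨μ, hμ, hμ1, hμh, hμb, hμG⟩ := hGε _ hε
  have hε1 : 1 - κ / (1 + κ) = 1 / (1 + κ) := by
    field_simp
    ring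
  rw [hε1] at hμG
  have hJpos : ∀ s, G s ≠ 0 → 0 < μ s := by
    intro s hs
    have h1 : 0 < G s := lt_of_le_of_ne (hG0 s) (Ne.symm hs)
    have h2 : 0 < 1 / (1 + κ) * G s * D.ht μ := by positivity
    exact lt_of_lt_of_le h2 (hμG s)
  -- the key vertex
  obtain ⟨s0, hs0, hs0'⟩ : ∃ s, μ s ≠ 0 ∧ D.B G (D.e s) < 0 := by
    by_contra hno
    push Not at hno
    have hz : ∀ s, μ s ≠ 0 → D.B G (D.e s) = 0 := fun s hs => le_antisymm (hGe s) (hno s hs)
    have hk : ∀ s, G s ≠ 0 → ∀ t, G t = 0 → μ t ≠ 0 → D.k s t = 0 := by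
      intro s hs t ht ht'
      have h1 := hz t ht'
      rw [B_e] at h1
      have h2 : ∀ r ∈ Finset.univ, G r * D.k r t ≤ 0 := by
        intro r _
        by_cases hrt : r = t
        · rw [hrt, ht, zero_mul]
        · exact mul_nonpos_of_nonneg_of_nonpos (hG0 r) (D.off r t hrt)
      have h3 := (Finset.sum_eq_zero_iff_of_nonpos h2).1 h1 s (Finset.mem_univ s)
      exact (mul_eq_zero.1 h3).resolve_left hs
    have hne : ∃ s, G s ≠ 0 := by
      by_contra h0
      push Not at h0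
      have : D.ht G = 0 := Finset.sum_eq_zero fun s _ => h0 s
      rw [hG1] at this
      exact one_ne_zero this
    obtain ⟨s1, hs1⟩ := hne
    have hIn : D.In {s | G s ≠ 0} μ := by
      rcases hCSU D {s | G s ≠ 0} {s | G s = 0 ∧ μ s ≠ 0}
        (fun s hs t ht => hk s hs t ht.1 ht.2) μ hμ.1 (fun s hs => by
          by_contra hc
          by_cases hg : G s = 0
          · exact hs (Or.inr ⟨hg, hc⟩)
          · exact hs (Or.inl hg)) with h | h
      · exact h
      · exact absurd (h s1 fun h' => hs1 h'.1) (hJpos s1 hs1).ne'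
    have hconn : D.Conn {s | G s ≠ 0} := by
      intro K' hK' hne' hK
      rcases hCSU D K' ({s | G s ≠ 0} \ K') hK μ hμ.1 (fun s hs => by
          refine hIn s fun hs' => hs ?_
          by_cases h : s ∈ K'
          · exact Or.inl h
          · exact Or.inr ⟨hs', h⟩) with h | h
      · refine Set.Subset.antisymm hK' fun s hs => ?_
        by_contra hc
        exact (hJpos s hs).ne' (h s hc)
      · obtain ⟨s, hs⟩ := hne'
        exact absurd (h s fun h' => h'.2 hs) (hJpos s (hK' hs)).ne'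
    exact hμb G ⟨⟨hG0, hGe⟩, hGG, hG1, hconn⟩ hIn
  have hκs := hκ' s0 hs0'
  have hc1 : 1 ≤ μ s0 := hCOE D μ hμ s0 hs0
  -- the computation
  have hBGμ : D.B G μ ≤ -κ := by
    rw [B_sum, ← Finset.add_sum_erase _ _ (Finset.mem_univ s0)]
    have h1 : μ s0 * D.B G (D.e s0) ≤ -κ := by
      nlinarith
    have h2 : ∑ t ∈ Finset.univ.erase s0, μ t * D.B G (D.e t) ≤ 0 :=
      Finset.sum_nonpos fun t _ => mul_nonpos_of_nonneg_of_nonpos (hμ.2 t) (hGe t)
    linarith
  obtain ⟨b1, b2, -, -, -, b6, -⟩ := hBAS D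
  set p : ℝ := 1 / (1 + κ) * D.ht μ with hp
  have hp0 : 0 < p := by positivity
  have hsplit : D.B μ μ = p * D.B μ G + ∑ s, (μ s - p * G s) * D.B μ (D.e s) := by
    rw [B_sum μ μ, B_sum μ G, Finset.mul_sum, ← Finset.sum_add_distrib]
    refine Finset.sum_congr rfl fun s _ => ?_
    ring
  have hrest : ∑ s, (μ s - p * G s) * D.B μ (D.e s) ≤ D.ht μ - p := by
    have h1 : ∑ s, (μ s - p * G s) * D.B μ (D.e s) ≤ ∑ s, (μ s - p * G s) := by
      refine Finset.sum_le_sum fun s _ => ?_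
      have h2 : 0 ≤ μ s - p * G s := by
        have := hμG s
        have h3 : p * G s = 1 / (1 + κ) * G s * D.ht μ := by rw [hp]; ring
        linarith
      calc (μ s - p * G s) * D.B μ (D.e s) ≤ (μ s - p * G s) * 1 :=
            mul_le_mul_of_nonneg_left (hμ1 s) h2
        _ = _ := mul_one _
    have h4 : ∑ s, (μ s - p * G s) = D.ht μ - p * D.ht G := by
      rw [Finset.sum_sub_distrib, ← Finset.mul_sum]
      rfl
    rw [hG1, mul_one] at h4
    linarith
  have h1 : D.B μ μ = 1 := b6 μ hμ.1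
  have h2 : D.B μ G ≤ -κ := by rw [b1]; exact hBGμ
  have h3 : p * D.B μ G ≤ p * (-κ) := mul_le_mul_of_nonneg_left h2 hp0.le
  have h5 : p * (1 + κ) = D.ht μ := by
    rw [hp]
    field_simp
  nlinarith

end H98S
end Pool.CS
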