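import Pool.Agent.Work.MP_64ea0f_cs.InterfaceC

set_option autoImplicit false

/-! # Block C_ACT: the action on labelled cuts is a right action (helper98) -/

namespace Pool.CS.H98

open Pool.CS Pool.CS.Per

variable {Λ : Type} {G : SimpleGraph Λ}

theorem ok_iff (M : Subgroup (RC G)) [M.Normal] {t a : Λ} (h : a ∈ star G t) (u : RC G ⧸ M) :
    Ok M t ((QuotientGroup.mk (rg G a) : RC G ⧸ M) * u) ↔ Ok M t u := by
  have key : ∀ v : RC G ⧸ M, Ok M t v →
      Ok M t ((QuotientGroup.mk (rg G a) : RC G ⧸ M) * v) := by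
    rintro v ⟨x, hx, rfl⟩
    refine ⟨rg G a * x, ?_, ?_⟩
    · exact Subgroup.mul_mem _ (Subgroup.subset_closure ⟨a, h, rfl⟩) hx
    · exact QuotientGroup.mk_mul M _ _
  constructor
  · intro h1
    have h2 := key _ h1
    rw [← mul_assoc, ← QuotientGroup.mk_mul, rg_mul_self, QuotientGroup.mk_one, one_mul] at h2
    exact h2
  · exact key u

theorem fin_flip {D : Set ℤ} (x : ℤ) (h : (symmDiff D D0).Finite) :
    (symmDiff (symmDiff D {x}) D0).Finite := by
  refine (h.insert x).subset ?_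
  intro y hy
  by_cases hyx : y = x
  · exact Or.inl hyx
  · right
    rw [Set.mem_symmDiff] at hy ⊢
    rw [mem_flip_ne hyx] at hy
    exact hy

theorem square_fwd (H : Per G) {D : Set ℤ} {i j : ℤ} (hD : H.Cut D)
    (hij : G.Adj (H.s i) (H.s j)) (hi : H.Cut (symmDiff D {i})) (hj : H.Cut (symmDiff D {j})) :
    H.Cut (symmDiff (symmDiff D {i}) {j}) := by
  have hne : i ≠ j := by
    rintro rfl
    exact G.ne_of_adj hij rfl
  have hcomm : symmDiff (symmDiff D {i}) {j} = symmDiff (symmDiff D {j}) ({i} : Set ℤ) :=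
    symmDiff_right_comm D {i} {j}
  have ai := H.act_of_cut hD hi
  refine ⟨?_, ?_, fin_flip j hi.2.2⟩
  · intro a b ha hb hab hdep
    by_cases h : a = i ∨ b = i
    · have haj : a ≠ j ∧ b ≠ j := by
        rcases h with h | h
        · subst h
          refine ⟨hne, ?_⟩
          rintro rfl
          exact not_dep hij hdep
        · subst h
          refine ⟨?_, hne⟩
          rintro rfl
          exact not_dep hij (dep_symm hdep)
      rw [mem_flip_ne haj.1, mem_flip_ne haj.2]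
      exact hi.1 a b ha hb hab hdep
    · have h1 : a ≠ i := fun h' => h (Or.inl h')
      have h2 : b ≠ i := fun h' => h (Or.inr h')
      rw [hcomm, mem_flip_ne h1, mem_flip_ne h2]
      exact hj.1 a b ha hb hab hdep
  · intro a ha
    have h1 : a ≠ i := by
      rintro rfl
      exact ha ai
    rw [hcomm, mem_flip_ne h1]
    exact hj.2.1 a ha

/-- squares -/
theorem square (H : Per G) {D : Set ℤ} {i j : ℤ} (hD : H.Cut D)
    (hij : G.Adj (H.s i) (H.s j)) (hi : H.Cut (symmDiff D {i})) :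
    H.Cut (symmDiff (symmDiff D {i}) {j}) ↔ H.Cut (symmDiff D {j}) := by
  constructor
  · intro h
    have h2 : H.Cut (symmDiff (symmDiff D {i}) {i}) := by rw [Per.flip_flip]; exact hD
    have h3 := square_fwd H hi hij h2 h
    rw [Per.flip_flip] at h3
    exact h3
  · exact square_fwd H hD hij hi

theorem cond_iff (H : Per G) {D : Set ℤ} {i : ℤ} {b : Λ} (hD : H.Cut D)
    (hij : G.Adj (H.s i) b) (hi : H.Cut (symmDiff D {i})) :
    (∃ j, H.s j = b ∧ H.Cut (symmDiff (symmDiff D {i}) {j})) ↔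
      ∃ j, H.s j = b ∧ H.Cut (symmDiff D {j}) := by
  constructor
  · rintro ⟨j, rfl, h⟩
    exact ⟨j, rfl, (square H hD hij hi).1 h⟩
  · rintro ⟨j, rfl, h⟩
    exact ⟨j, rfl, (square H hD hij hi).2 h⟩

theorem step_inv (H : Per G) (M : Subgroup (RC G)) [M.Normal] (t : Λ) (x : H.X M) :
    H.step M t (H.step M t x) = x := by
  obtain ⟨⟨D, hD⟩, u⟩ := x
  by_cases h : (∃ i, H.s i = t ∧ H.Cut (symmDiff D {i})) ∧ Ok M t u
  · obtain ⟨⟨i, rfl, hi⟩, hu⟩ := h
    rw [H.step_flip M (⟨⟨D, hD⟩, u⟩ : H.X M) i hi hu]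
    have h2 : H.Cut (symmDiff (symmDiff D {i}) {i}) := by rw [Per.flip_flip]; exact hD
    rw [H.step_flip M (⟨⟨symmDiff D {i}, hi⟩, u⟩ : H.X M) i h2 hu]
    apply Prod.ext
    · apply Subtype.ext
      exact Per.flip_flip D i
    · rfl
  · rw [H.step_not M t (⟨⟨D, hD⟩, u⟩ : H.X M) h]
    have h2 : ¬ ((∃ i, H.s i = t ∧ H.Cut (symmDiff D {i})) ∧
        Ok M t ((QuotientGroup.mk (rg G t) : RC G ⧸ M) * u)) := by
      rw [ok_iff M (Or.inl rfl) u]
      exact h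
    rw [H.step_not M t (⟨⟨D, hD⟩, (QuotientGroup.mk (rg G t) : RC G ⧸ M) * u⟩ : H.X M) h2]
    apply Prod.ext
    · rfl
    · change (QuotientGroup.mk (rg G t) : RC G ⧸ M) * ((QuotientGroup.mk (rg G t) : RC G ⧸ M) * u)
        = u
      rw [← mul_assoc, ← QuotientGroup.mk_mul, rg_mul_self, QuotientGroup.mk_one, one_mul]

theorem step_com_mixed (H : Per G) (M : Subgroup (RC G)) [M.Normal] {a b : Λ} (hab : G.Adj a b)
    {D : Set ℤ} (hD : H.Cut D) (u : RC G ⧸ M)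
    (hA : (∃ i, H.s i = a ∧ H.Cut (symmDiff D {i})) ∧ Ok M a u)
    (hB : ¬ ((∃ i, H.s i = b ∧ H.Cut (symmDiff D {i})) ∧ Ok M b u)) :
    H.step M a (H.step M b (⟨D, hD⟩, u)) = H.step M b (H.step M a (⟨D, hD⟩, u)) := by
  obtain ⟨⟨i, rfl, hi⟩, hu⟩ := hA
  rw [H.step_not M b (⟨⟨D, hD⟩, u⟩ : H.X M) hB, H.step_flip M (⟨⟨D, hD⟩, u⟩ : H.X M) i hi hu]
  have hu2 : Ok M (H.s i) ((QuotientGroup.mk (rg G b) : RC G ⧸ M) * u) := by
    rw [ok_iff M (Or.inr hab) u]
    exact hu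
  rw [H.step_flip M (⟨⟨D, hD⟩, (QuotientGroup.mk (rg G b) : RC G ⧸ M) * u⟩ : H.X M) i hi hu2]
  have hB2 : ¬ ((∃ j, H.s j = b ∧ H.Cut (symmDiff (symmDiff D {i}) {j})) ∧ Ok M b u) := by
    rw [cond_iff H hD hab hi]
    exact hB
  rw [H.step_not M b (⟨⟨symmDiff D {i}, hi⟩, u⟩ : H.X M) hB2]

theorem step_com (H : Per G) (M : Subgroup (RC G)) [M.Normal] (a b : Λ) (hab : G.Adj a b)
    (x : H.X M) : H.step M a (H.step M b x) = H.step M b (H.step M a x) := by
  obtain ⟨⟨D, hD⟩, u⟩ := x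
  by_cases hA : (∃ i, H.s i = a ∧ H.Cut (symmDiff D {i})) ∧ Ok M a u
  · by_cases hB : (∃ i, H.s i = b ∧ H.Cut (symmDiff D {i})) ∧ Ok M b u
    · obtain ⟨⟨i, rfl, hi⟩, hu⟩ := hA
      obtain ⟨⟨j, rfl, hj⟩, hv⟩ := hB
      rw [H.step_flip M (⟨⟨D, hD⟩, u⟩ : H.X M) i hi hu,
        H.step_flip M (⟨⟨D, hD⟩, u⟩ : H.X M) j hj hv]
      have h1 := square_fwd H hD hab hi hj
      have h2 := square_fwd H hD hab.symm hj hi
      rw [H.step_flip M (⟨⟨symmDiff D {j}, hj⟩, u⟩ : H.X M) i h2 hu,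
        H.step_flip M (⟨⟨symmDiff D {i}, hi⟩, u⟩ : H.X M) j h1 hv]
      apply Prod.ext
      · apply Subtype.ext
        exact symmDiff_right_comm D {j} {i}
      · rfl
    · exact step_com_mixed H M hab hD u hA hB
  · by_cases hB : (∃ i, H.s i = b ∧ H.Cut (symmDiff D {i})) ∧ Ok M b u
    · exact (step_com_mixed H M hab.symm hD u hB hA).symm
    · rw [H.step_not M a (⟨⟨D, hD⟩, u⟩ : H.X M) hA, H.step_not M b (⟨⟨D, hD⟩, u⟩ : H.X M) hB]
      have hA2 : ¬ ((∃ i, H.s i = a ∧ H.Cut (symmDiff D {i})) ∧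
          Ok M a ((QuotientGroup.mk (rg G b) : RC G ⧸ M) * u)) := by
        rw [ok_iff M (Or.inr hab) u]
        exact hA
      have hB2 : ¬ ((∃ i, H.s i = b ∧ H.Cut (symmDiff D {i})) ∧
          Ok M b ((QuotientGroup.mk (rg G a) : RC G ⧸ M) * u)) := by
        rw [ok_iff M (Or.inr hab.symm) u]
        exact hB
      rw [H.step_not M a (⟨⟨D, hD⟩, (QuotientGroup.mk (rg G b) : RC G ⧸ M) * u⟩ : H.X M) hA2,
        H.step_not M b (⟨⟨D, hD⟩, (QuotientGroup.mk (rg G a) : RC G ⧸ M) * u⟩ : H.X M) hB2]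
      apply Prod.ext
      · rfl
      · change (QuotientGroup.mk (rg G a) : RC G ⧸ M) *
            ((QuotientGroup.mk (rg G b) : RC G ⧸ M) * u) =
          (QuotientGroup.mk (rg G b) : RC G ⧸ M) * ((QuotientGroup.mk (rg G a) : RC G ⧸ M) * u)
        rw [← mul_assoc, ← mul_assoc, ← QuotientGroup.mk_mul, ← QuotientGroup.mk_mul,
          rg_comm hab]

/-- the block -/
theorem stmt_C_ACT : Stmt_C_ACT :=
  fun _ _ H M _ => ⟨fun t x => step_inv H M t x, fun a b hab x => step_com H M a b hab x⟩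

end Pool.CS.H98
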